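import Mathlib

set_option autoImplicit false
set_option linter.unusedSectionVars false

namespace Pool.Agent.R497.LB

open Filter Topology Set

variable {X : Type*} [LinearOrder X]

open Classical in
/-- The itinerary parity: `true` for sign `+1`, `false` for sign `-1`. -/
noncomputable def par (f : X → X) (c : X) : ℕ → Bool
  | 0 => false
  | n + 1 => xor (par f c n) (decide (c < f^[n] c))

/-- The cutting times, read off from the sides of the orbit of `c`. -/
def IsCutting (f : X → X) (c : X) (S : ℕ → ℕ) : Prop :=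
  S 0 = 1 ∧ ∀ k, IsLeast {n | S k < n ∧ ¬(c < f^[n] c ↔ c < f^[n - S k] c)} (S (k + 1))

variable {f : X → X} {c : X}

theorem lt_max (hi : StrictMonoOn f (Iic c)) (hd : StrictAntiOn f (Ici c)) {y : X} (hy : y ≠ c) :
    f y < f c := by
  rcases lt_or_gt_of_ne hy with h | h
  · exact hi h.le self_mem_Iic h
  · exact hd self_mem_Ici h.le h

theorem S_lt {S : ℕ → ℕ} (hS : IsCutting f c S) (k : ℕ) : S k < S (k + 1) := (hS.2 k).1.1

theorem S_pos {S : ℕ → ℕ} (hS : IsCutting f c S) (k : ℕ) : 1 ≤ S k := by
  induction k with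
  | zero => rw [hS.1]
  | succ k ih => exact ih.trans (S_lt hS k).le

theorem agree {S : ℕ → ℕ} (hS : IsCutting f c S) {k n : ℕ} (h1 : S k < n) (h2 : n < S (k + 1)) :
    (c < f^[n] c ↔ c < f^[n - S k] c) := by
  by_contra h
  exact absurd ((hS.2 k).2 ⟨h1, h⟩) (not_le.2 h2)

theorem par_succ_true {n : ℕ} (h : c < f^[n] c) : par f c (n + 1) = !par f c n := by
  simp [par, h]

theorem par_succ_false {n : ℕ} (h : ¬ c < f^[n] c) : par f c (n + 1) = par f c n := by
  simp [par, h]

theorem F1_step (hi : StrictMonoOn f (Iic c)) (hd : StrictAntiOn f (Ici c))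
    (hp : ∀ n, 1 ≤ n → f^[n] c ≠ c) {S : ℕ → ℕ} (hS : IsCutting f c S)
    (k : ℕ) (hb : par f c (S k + 1) = true) :
    ∀ n, S k + 1 ≤ n → n ≤ S (k + 1) →
      (par f c n = true → f^[n] c < f^[n - S k] c) ∧
      (par f c n = false → f^[n - S k] c < f^[n] c) := by
  intro n hn
  induction n, hn using Nat.le_induction with
  | base =>
    intro _
    have e : S k + 1 - S k = 1 := by omega
    rw [e, hb, Function.iterate_succ_apply']
    refine ⟨fun _ => ?_, fun h => by simp at h⟩
    exact lt_max hi hd (hp _ (S_pos hS k))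
  | succ n hn ih =>
    intro hle
    obtain ⟨ih1, ih2⟩ := ih (by omega)
    have e : n + 1 - S k = (n - S k) + 1 := by omega
    rw [e, Function.iterate_succ_apply', Function.iterate_succ_apply']
    have hag := agree hS (k := k) (n := n) (by omega) (by omega)
    by_cases hc : c < f^[n] c
    · have hc' := hag.1 hc
      rw [par_succ_true hc]
      constructor
      · intro h
        have h' : par f c n = false := by simpa using h
        exact hd hc'.le hc.le (ih2 h')
      · intro h
        have h' : par f c n = true := by simpa using h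
        exact hd hc.le hc'.le (ih1 h')
    · have hc' : ¬ c < f^[n - S k] c := fun h => hc (hag.2 h)
      rw [par_succ_false hc]
      rw [not_lt] at hc hc'
      exact ⟨fun h => hi hc hc' (ih1 h), fun h => hi hc' hc (ih2 h)⟩

/-- (F1) -/
theorem F1 (hi : StrictMonoOn f (Iic c)) (hd : StrictAntiOn f (Ici c))
    (hp : ∀ n, 1 ≤ n → f^[n] c ≠ c) (h1 : c < f c) {S : ℕ → ℕ} (hS : IsCutting f c S) :
    ∀ k n, S k + 1 ≤ n → n ≤ S (k + 1) →
      (par f c n = true → f^[n] c < f^[n - S k] c) ∧
      (par f c n = false → f^[n - S k] c < f^[n] c) := by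
  intro k
  induction k with
  | zero =>
    refine F1_step hi hd hp hS 0 ?_
    rw [hS.1]
    have h1' : c < f^[1] c := by simpa using h1
    rw [par_succ_true h1']
    simp [par]
  | succ k ih =>
    refine F1_step hi hd hp hS (k + 1) ?_
    obtain ⟨i1, i2⟩ := ih (S (k + 1)) (S_lt hS k) le_rfl
    have hne := (hS.2 k).1.2
    by_cases hc : c < f^[S (k + 1)] c
    · have hc' : ¬ c < f^[S (k + 1) - S k] c := fun h => hne ⟨fun _ => h, fun _ => hc⟩
      rw [par_succ_true hc]
      rcases hb : par f c (S (k + 1)) with _ | _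
      · rfl
      · exact absurd (hc.trans (i1 hb)) hc'
    · have hc' : c < f^[S (k + 1) - S k] c := by
        by_contra h
        exact hne ⟨fun h' => absurd h' hc, fun h' => absurd h' h⟩
      rw [par_succ_false hc]
      rcases hb : par f c (S (k + 1)) with _ | _
      · exact absurd (hc'.trans (i2 hb)) hc
      · rfl

/-- Every `n ≥ 1` lies in exactly one block. -/
theorem block {S : ℕ → ℕ} (hS : IsCutting f c S) {n : ℕ} (hn : 1 ≤ n) (hne : ∀ k, n ≠ S k) :
    ∃ k, S k < n ∧ n < S (k + 1) := by
  have hmono : StrictMono S := strictMono_nat_of_lt_succ (S_lt hS)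
  have hex : ∃ k, n < S k := ⟨n + 1, lt_of_lt_of_le (Nat.lt_succ_self n) (hmono.id_le _)⟩
  classical
  have h1 := Nat.find_spec hex
  have h2 : ∀ m < Nat.find hex, ¬ n < S m := fun m hm => Nat.find_min hex hm
  rcases h : Nat.find hex with _ | k
  · rw [h, hS.1] at h1
    omega
  · rw [h] at h1 h2
    refine ⟨k, ?_, h1⟩
    have := h2 k (Nat.lt_succ_self k)
    have := hne k
    omega

end Pool.Agent.R497.LB
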