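import Pool.Agent.R497.LB.Top

set_option autoImplicit false
set_option linter.unusedSectionVars false

namespace Pool.Agent.R497.LB

open Filter Topology Set

variable {X : Type*} [LinearOrder X] [TopologicalSpace X] [OrderTopology X] [CompactSpace X]
variable {f : X → X} {c : X}

theorem exists_lim (U : Ultrafilter ℕ) (u : ℕ → X) : ∃ z, Tendsto u U (𝓝 z) := by
  obtain ⟨z, _, hz⟩ := isCompact_univ.ultrafilter_le_nhds' (Ultrafilter.map u U) Filter.univ_mem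
  exact ⟨z, hz⟩

theorem sym_eventually {Ω : Set X} (hf : Continuous f) (hmaps : MapsTo f Ω Ω)
    {σ : X → Bool} (hσ : ∀ y ∈ Ω, ∀ᶠ y' in 𝓝[Ω] y, σ y' = σ y)
    {U : Ultrafilter ℕ} {Y : ℕ → X} (hY : ∀ n, Y n ∈ Ω) {y : X} (hyΩ : y ∈ Ω)
    (hy : Tendsto Y U (𝓝 y)) (i : ℕ) : ∀ᶠ n in U, σ (f^[i] (Y n)) = σ (f^[i] y) := by
  have h1 : Tendsto (fun n => f^[i] (Y n)) U (𝓝[Ω] (f^[i] y)) := by
    rw [tendsto_nhdsWithin_iff]
    exact ⟨((hf.iterate i).tendsto y).comp hy, Eventually.of_forall fun n => hmaps.iterate i (hY n)⟩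
  exact h1.eventually (hσ _ (hmaps.iterate i hyΩ))

theorem step1 {Ω : Set X} (hf : Continuous f) (hcl : IsClosed Ω) (hmaps : MapsTo f Ω Ω)
    (hinj : InjOn f Ω) {σ : X → Bool} (hσ : ∀ y ∈ Ω, ∀ᶠ y' in 𝓝[Ω] y, σ y' = σ y)
    (hsep : ∀ y ∈ Ω, ∀ z ∈ Ω, y ≠ z → ∃ n, σ (f^[n] y) ≠ σ (f^[n] z)) :
    ∃ N, ∀ y ∈ Ω, ∀ z ∈ Ω, (∀ i, 1 ≤ i → i ≤ N → σ (f^[i] y) = σ (f^[i] z)) → σ y = σ z := by
  by_contra hcon
  push Not at hcon
  choose Y hY Z hZ hag hne using hcon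
  let V : Ultrafilter ℕ := Ultrafilter.of atTop
  have hV : (V : Filter ℕ) ≤ atTop := Ultrafilter.of_le _
  obtain ⟨y, hy⟩ := exists_lim V Y
  obtain ⟨z, hz⟩ := exists_lim V Z
  have hyΩ : y ∈ Ω := hcl.mem_of_tendsto hy (Eventually.of_forall hY)
  have hzΩ : z ∈ Ω := hcl.mem_of_tendsto hz (Eventually.of_forall hZ)
  have key : ∀ i, 1 ≤ i → σ (f^[i] y) = σ (f^[i] z) := by
    intro i hi
    have e1 := sym_eventually hf hmaps hσ hY hyΩ hy i
    have e2 := sym_eventually hf hmaps hσ hZ hzΩ hz i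
    have e3 : ∀ᶠ n in (V : Filter ℕ), i ≤ n := hV (eventually_ge_atTop i)
    obtain ⟨n, h1, h2, h3⟩ := (e1.and (e2.and e3)).exists
    rw [← h1, ← h2]
    exact hag n i hi h3
  have key0 : σ y ≠ σ z := by
    have e1 := sym_eventually hf hmaps hσ hY hyΩ hy 0
    have e2 := sym_eventually hf hmaps hσ hZ hzΩ hz 0
    obtain ⟨n, h1, h2⟩ := (e1.and e2).exists
    simp only [Function.iterate_zero, id] at h1 h2
    rw [← h1, ← h2]
    exact hne n
  have hyz : y ≠ z := fun h => key0 (by rw [h])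
  have hfyz : f y ≠ f z := fun h => hyz (hinj hyΩ hzΩ h)
  obtain ⟨n, hn⟩ := hsep _ (hmaps hyΩ) _ (hmaps hzΩ) hfyz
  exact hn (key (n + 1) (by omega))

theorem step2 {Ω : Set X} (hmaps : MapsTo f Ω Ω) {σ : X → Bool} {N : ℕ}
    (hN : ∀ y ∈ Ω, ∀ z ∈ Ω, (∀ i, 1 ≤ i → i ≤ N → σ (f^[i] y) = σ (f^[i] z)) → σ y = σ z)
    {y z : X} (hy : y ∈ Ω) (hz : z ∈ Ω) : ∀ L,
    (∀ i, L ≤ i → i < L + N → σ (f^[i] y) = σ (f^[i] z)) →
      ∀ i, i < L + N → σ (f^[i] y) = σ (f^[i] z) := by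
  intro L
  induction L with
  | zero => intro h i hi; exact h i (Nat.zero_le _) hi
  | succ L ih =>
    intro h
    have hL : σ (f^[L] y) = σ (f^[L] z) := by
      apply hN _ (hmaps.iterate L hy) _ (hmaps.iterate L hz)
      intro i h1 h2
      rw [← Function.iterate_add_apply, ← Function.iterate_add_apply]
      exact h _ (by omega) (by omega)
    have ih' := ih (by
      intro i h1 h2
      rcases Nat.eq_or_lt_of_le h1 with h' | h'
      · rw [← h']; exact hL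
      · exact h i h' (by omega))
    intro i hi
    by_cases h1 : i < L + N
    · exact ih' i h1
    · by_cases h2 : L + 1 ≤ i
      · exact h i h2 hi
      · have : i = L := by omega
        rw [this]; exact hL

theorem no_sep {Ω : Set X} (hf : Continuous f) (hcl : IsClosed Ω) (hmaps : MapsTo f Ω Ω)
    (hinj : InjOn f Ω) (hcΩ : c ∈ Ω) (hp : ∀ n, 1 ≤ n → f^[n] c ≠ c)
    {σ : X → Bool} (hσ : ∀ y ∈ Ω, ∀ᶠ y' in 𝓝[Ω] y, σ y' = σ y)
    (hsep : ∀ y ∈ Ω, ∀ z ∈ Ω, y ≠ z → ∃ n, σ (f^[n] y) ≠ σ (f^[n] z)) : False := by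
  obtain ⟨N, hN⟩ := step1 hf hcl hmaps hinj hσ hsep
  have hfin : Ω.Finite := by
    by_contra hinf
    obtain ⟨F, hF, hcard⟩ := Set.Infinite.exists_subset_card_eq hinf (2 ^ N + 1)
    classical
    have : ∀ p : X × X, ∃ n, p.1 ∈ Ω → p.2 ∈ Ω → p.1 ≠ p.2 →
        σ (f^[n] p.1) ≠ σ (f^[n] p.2) := by
      intro p
      by_cases h : p.1 ∈ Ω ∧ p.2 ∈ Ω ∧ p.1 ≠ p.2
      · obtain ⟨n, hn⟩ := hsep _ h.1 _ h.2.1 h.2.2
        exact ⟨n, fun _ _ _ => hn⟩
      · exact ⟨0, fun h1 h2 h3 => absurd ⟨h1, h2, h3⟩ h⟩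
    choose t ht using this
    let L := (F ×ˢ F).sup t + 1
    have hlt : ∀ y ∈ F, ∀ z ∈ F, t (y, z) < L := fun y hy z hz =>
      Nat.lt_succ_of_le (Finset.le_sup (f := t) (Finset.mk_mem_product hy hz))
    obtain ⟨y, hy, z, hz, hyz, heq⟩ := Finset.exists_ne_map_eq_of_card_lt_of_maps_to
      (s := F) (t := (Finset.univ : Finset (Fin N → Bool)))
      (by rw [Finset.card_univ, Fintype.card_fun, Fintype.card_bool, Fintype.card_fin, hcard]
          exact Nat.lt_succ_self _)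
      (f := fun y (i : Fin N) => σ (f^[L + i] y)) (fun _ _ => by simp)
    have hyΩ := hF hy
    have hzΩ := hF hz
    refine ht (y, z) hyΩ hzΩ hyz ?_
    refine step2 hmaps hN hyΩ hzΩ L ?_ _ (lt_of_lt_of_le (hlt y hy z hz) (Nat.le_add_right _ _))
    intro i h1 h2
    have := congrFun heq ⟨i - L, by omega⟩
    simp only at this
    rwa [Nat.add_sub_cancel' h1] at this
  have hnotinj : ¬ Function.Injective (fun n : ℕ => (⟨f^[n] c, hmaps.iterate n hcΩ⟩ : Ω)) := by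
    intro h
    have := hfin.to_subtype
    exact not_injective_infinite_finite _ h
  rw [Function.Injective] at hnotinj
  push Not at hnotinj
  obtain ⟨i, j, hij, hne⟩ := hnotinj
  have hij' : f^[i] c = f^[j] c := congrArg Subtype.val hij
  have main : ∀ a b : ℕ, a < b → f^[a] c = f^[b] c → False := by
    intro a b hab he
    have hb : b = a + (b - a) := by omega
    rw [hb, Function.iterate_add_apply] at he
    have := hinj.iterate hmaps a hcΩ (hmaps.iterate (b - a) hcΩ) he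
    exact hp (b - a) (by omega) this.symm
  rcases lt_or_gt_of_ne hne with h | h
  · exact main i j h hij'
  · exact main j i h hij'.symm

end Pool.Agent.R497.LB
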