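import Pool.Agent.R497.LB.Fin

set_option autoImplicit false
set_option linter.unusedSectionVars false

namespace Pool.Agent.R497.LB

open Filter Topology Set

variable {X : Type*} [LinearOrder X] [TopologicalSpace X] [OrderTopology X] [CompactSpace X]
variable {f : X → X} {c : X}

theorem side_eventually {U : Ultrafilter ℕ} {u : ℕ → X} {z : X} (h : Tendsto u U (𝓝 z))
    (hz : z ≠ c) : ∀ᶠ n in U, (c < u n ↔ c < z) := by
  rcases lt_or_gt_of_ne hz with h' | h'
  · filter_upwards [h.eventually (Iio_mem_nhds h')] with n hn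
    exact ⟨fun h1 => absurd h1 (not_lt.2 (le_of_lt hn)), fun h1 => absurd h1 (not_lt.2 h'.le)⟩
  · filter_upwards [h.eventually (Ioi_mem_nhds h')] with n hn
    exact ⟨fun _ => h', fun _ => hn⟩

open Classical in
/-- the parity along the backward orbit `z m, z (m-1), …` -/
noncomputable def cpar (c : X) (z : ℕ → X) (m : ℕ) : ℕ → Bool
  | 0 => decide (c < z m)
  | i + 1 => xor (cpar c z m i) (decide (c < z (m - i)))

/-- (B): the critical point is not approached from both sides by its orbit. -/
theorem not_both (hf : Continuous f) (hi : StrictMonoOn f (Iic c)) (hd : StrictAntiOn f (Ici c))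
    (hp : ∀ n, 1 ≤ n → f^[n] c ≠ c) (h1 : c < f c) {S : ℕ → ℕ} (hS : IsCutting f c S)
    {K : ℕ} (hK : ∀ k, S (k + 1) - S k ≤ K) (hc : c ∈ om f c)
    (hinj : InjOn f (om f c)) (hmin : ∀ x ∈ om f c, om f c ⊆ closure (range fun n => f^[n] x))
    {UL UR : Ultrafilter ℕ} (hUL : (UL : Filter ℕ) ≤ atTop) (hUR : (UR : Filter ℕ) ≤ atTop)
    (hL : Tendsto (fun n => f^[n] c) UL (𝓝[<] c)) (hR : Tendsto (fun n => f^[n] c) UR (𝓝[>] c)) :
    False := by
  have hmaps := mapsTo_om hf c
  have hL0 : Tendsto (fun n => f^[n] c) UL (𝓝 c) := hL.mono_right nhdsWithin_le_nhds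
  have hR0 : Tendsto (fun n => f^[n] c) UR (𝓝 c) := hR.mono_right nhdsWithin_le_nhds
  choose z hzΩ hz hzc using fun m => exists_back hf hUL hL0 m
  have hzR : ∀ m, Tendsto (fun n => f^[n - m] c) UR (𝓝 (z m)) := by
    intro m
    obtain ⟨w, hwΩ, hw, hwc⟩ := exists_back hf hUR hR0 m
    have : w = z m := hinj.iterate hmaps m hwΩ (hzΩ m) (by rw [hwc, hzc])
    rw [← this]; exact hw
  have hstep : ∀ m, f (z (m + 1)) = z m := by
    intro m
    apply hinj.iterate hmaps m (hmaps (hzΩ _)) (hzΩ m)
    rw [hzc m, ← hzc (m + 1), Function.iterate_succ_apply]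
  have hback : ∀ i m, i ≤ m → f^[i] (z m) = z (m - i) := by
    intro i
    induction i with
    | zero => intro m _; rfl
    | succ i ih =>
      intro m him
      rw [Function.iterate_succ_apply', ih m (by omega)]
      have : m - i = (m - (i + 1)) + 1 := by omega
      rw [this, hstep]
  have hzne : ∀ m, 1 ≤ m → z m ≠ c := by
    intro m hm h
    have := hzc m
    rw [h] at this
    exact hp m hm this
  -- `c` is a cluster point of `z`
  have hclust : MapClusterPt c atTop z := by
    let V : Ultrafilter ℕ := Ultrafilter.of atTop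
    have hV : (V : Filter ℕ) ≤ atTop := Ultrafilter.of_le _
    obtain ⟨a, ha⟩ := exists_lim V z
    have haΩ : a ∈ om f c := (isClosed_om c).mem_of_tendsto ha (Eventually.of_forall hzΩ)
    have hcl : IsClosed {y | MapClusterPt y atTop z} := isClosed_setOfPred_clusterPt
    have hsub : (range fun n => f^[n] a) ⊆ {y | MapClusterPt y atTop z} := by
      rintro _ ⟨i, rfl⟩
      rw [mem_ofPred_eq, mapClusterPt_iff_ultrafilter]
      refine ⟨Ultrafilter.map (fun n => n - i) V, (tendsto_sub_atTop_nat i).mono_left hV, ?_⟩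
      refine (Filter.tendsto_map' ?_ : Tendsto _ (Filter.map (fun n => n - i) (V : Filter ℕ)) _)
      have h2 : Tendsto (fun n => f^[i] (z n)) V (𝓝 (f^[i] a)) := ((hf.iterate i).tendsto a).comp ha
      refine h2.congr' ?_
      filter_upwards [hV (eventually_ge_atTop i)] with n hn
      exact hback i n hn
    exact (closure_minimal hsub hcl) (hmin a haΩ hc)
  have hF4 := F4 hf hi hd hp h1 hS hK
  obtain ⟨m, hm1, hm2⟩ := ((hclust.frequently (eventually_eventually_nhds.2 hF4)).and_eventually
    (eventually_ge_atTop 1)).exists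
  -- common parity
  have key : ∀ U : Ultrafilter ℕ, (U : Filter ℕ) ≤ atTop →
      (∀ m, Tendsto (fun n => f^[n - m] c) U (𝓝 (z m))) → ∀ i ≤ m,
      ∀ᶠ n in (U : Filter ℕ), par f c (n - m + i) = cpar c z m i := by
    intro U hU hUz i
    induction i with
    | zero =>
      intro _
      filter_upwards [(hUz m).eventually hm1, side_eventually (hUz m) (hzne m hm2),
        hU (eventually_ge_atTop (m + 1))] with n a1 a2 a3
      have a4 := a1 (n - m) (by omega) rfl
      rw [a2] at a4
      simp only [add_zero, cpar]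
      by_cases hcz : c < z m
      · rw [a4.2 hcz]; simp [hcz]
      · rcases hb : par f c (n - m) with _ | _
        · simp [hcz]
        · exact absurd (a4.1 hb) hcz
    | succ i ih =>
      intro him
      have h2 : Tendsto (fun n => f^[i] (f^[n - m] c)) U (𝓝 (z (m - i))) := by
        rw [← hback i m (by omega)]
        exact ((hf.iterate i).tendsto _).comp (hUz m)
      filter_upwards [ih (by omega), side_eventually h2 (hzne (m - i) (by omega))] with n a1 a2
      have e : f^[i] (f^[n - m] c) = f^[n - m + i] c := by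
        rw [← Function.iterate_add_apply, Nat.add_comm]
      rw [e] at a2
      show xor (par f c (n - m + i)) _ = xor (cpar c z m i) _
      rw [a1]
      congr 1
      exact decide_eq_decide.2 a2
  have kL := key UL hUL hz m le_rfl
  have kR := key UR hUR hzR m le_rfl
  have vL : cpar c z m m = false := by
    have h3 : ∀ᶠ n in (UL : Filter ℕ), f^[n] c < c := hL.eventually self_mem_nhdsWithin
    obtain ⟨n, a1, a2, a3, a4⟩ := (kL.and ((hL0.eventually hF4).and
      (h3.and (hUL (eventually_ge_atTop (m + 1)))))).exists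
    have e : n - m + m = n := by omega
    rw [e] at a1
    rw [← a1]
    have a5 := a2 n (by omega) rfl
    rcases hb : par f c n with _ | _
    · rfl
    · exact absurd (a5.1 hb) (not_lt.2 a3.le)
  have vR : cpar c z m m = true := by
    have h3 : ∀ᶠ n in (UR : Filter ℕ), c < f^[n] c := hR.eventually self_mem_nhdsWithin
    obtain ⟨n, a1, a2, a3, a4⟩ := (kR.and ((hR0.eventually hF4).and
      (h3.and (hUR (eventually_ge_atTop (m + 1)))))).exists
    have e : n - m + m = n := by omega
    rw [e] at a1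
    rw [← a1]
    exact (a2 n (by omega) rfl).2 a3
  rw [vL] at vR
  exact absurd vR (by simp)

/-- A one-sided neighbourhood which the orbit eventually avoids. -/
theorem exists_avoid {W : Set X} (h : ¬ ∃ U : Ultrafilter ℕ, (U : Filter ℕ) ≤ atTop ∧
    Tendsto (fun n => f^[n] c) U (𝓝[W] c)) (hW : IsOpen W) :
    ∀ᶠ y in 𝓝[om f c] c, y ∉ W := by
  have h1 : ¬ (atTop ⊓ comap (fun n => f^[n] c) (𝓝[W] c)).NeBot := by
    intro hne
    refine h ⟨Ultrafilter.of (atTop ⊓ comap (fun n => f^[n] c) (𝓝[W] c)),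
      (Ultrafilter.of_le _).trans inf_le_left, ?_⟩
    rw [tendsto_iff_comap]
    exact (Ultrafilter.of_le _).trans inf_le_right
  rw [neBot_inf_comap_iff_map, inf_neBot_iff_frequently_left] at h1
  push Not at h1
  obtain ⟨p, hp1, hp2⟩ := h1
  rw [eventually_nhdsWithin_iff] at hp2
  obtain ⟨O, hO1, hO2, hO3⟩ := eventually_nhds_iff.1 hp2
  rw [eventually_nhdsWithin_iff]
  filter_upwards [hO2.mem_nhds hO3] with y hy hyΩ hyW
  have hfr : ∃ᶠ n in atTop, f^[n] c ∈ O ∩ W :=
    MapClusterPt.frequently hyΩ ((hO2.inter hW).mem_nhds ⟨hy, hyW⟩)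
  obtain ⟨n, a1, a2⟩ := (hfr.and_eventually hp1).exists
  exact hO1 _ a1.1 a1.2 a2

/-- If no iterate of `c` separates the orbits of `y < z`, all iterates are monotone on `[y, z]`. -/
theorem homterval (hi : StrictMonoOn f (Iic c)) (hd : StrictAntiOn f (Ici c)) {y z : X}
    (hyz : y < z)
    (h : ∀ n, ¬ (f^[n] y < c ∧ c < f^[n] z) ∧ ¬ (f^[n] z < c ∧ c < f^[n] y)) :
    ∀ n, StrictMonoOn f^[n] (Icc y z) ∨ StrictAntiOn f^[n] (Icc y z) := by
  intro n
  induction n with
  | zero => left; intro a _ b _ hab; exact hab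
  | succ n ih =>
    have hy : y ∈ Icc y z := ⟨le_rfl, hyz.le⟩
    have hz : z ∈ Icc y z := ⟨hyz.le, le_rfl⟩
    have hcases : (MapsTo f^[n] (Icc y z) (Iic c)) ∨ (MapsTo f^[n] (Icc y z) (Ici c)) := by
      obtain ⟨h1, h2⟩ := h n
      rcases ih with ih | ih
      · rcases lt_or_ge (f^[n] y) c with hh | hh
        · left
          intro a ha
          have : f^[n] z ≤ c := not_lt.1 fun h' => h1 ⟨hh, h'⟩
          exact (ih.monotoneOn ha hz ha.2).trans this
        · right
          intro a ha
          exact hh.trans (ih.monotoneOn hy ha ha.1)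
      · rcases lt_or_ge (f^[n] z) c with hh | hh
        · left
          intro a ha
          have : f^[n] y ≤ c := not_lt.1 fun h' => h2 ⟨hh, h'⟩
          exact (ih.antitoneOn hy ha ha.1).trans this
        · right
          intro a ha
          exact hh.trans (ih.antitoneOn ha hz ha.2)
    rw [Function.iterate_succ']
    rcases hcases with hc | hc
    · rcases ih with ih | ih
      · left; exact hi.comp ih hc
      · right; exact hi.comp_strictAntiOn ih hc
    · rcases ih with ih | ih
      · right; exact hd.comp_strictMonoOn ih hc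
      · left; exact hd.comp ih hc

/-- Main theorem in a compact linearly ordered space. -/
theorem main (hf : Continuous f) (hi : StrictMonoOn f (Iic c)) (hd : StrictAntiOn f (Ici c))
    (hp : ∀ n, 1 ≤ n → f^[n] c ≠ c) (h1 : c < f c) {S : ℕ → ℕ} (hS : IsCutting f c S)
    {K : ℕ} (hK : ∀ k, S (k + 1) - S k ≤ K) (hc : c ∈ om f c)
    (hinj : InjOn f (om f c)) (hmin : ∀ x ∈ om f c, om f c ⊆ closure (range fun n => f^[n] x)) :
    ∃ y ∈ om f c, ∃ z ∈ om f c, y < z ∧
      ∀ n, StrictMonoOn f^[n] (Icc y z) ∨ StrictAntiOn f^[n] (Icc y z) := by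
  classical
  by_contra hcon
  push Not at hcon
  have hsep : ∀ y ∈ om f c, ∀ z ∈ om f c, y < z →
      ∃ n, (f^[n] y < c ∧ c < f^[n] z) ∨ (f^[n] z < c ∧ c < f^[n] y) := by
    intro y hy z hz hyz
    by_contra hno
    push Not at hno
    obtain ⟨n, hn1, hn2⟩ := hcon y hy z hz hyz
    rcases homterval hi hd hyz (fun n => ⟨fun h => absurd h.2 (not_lt.2 ((hno n).1 h.1)),
      fun h => absurd h.2 (not_lt.2 ((hno n).2 h.1))⟩) n with h | h
    · exact hn1 h
    · exact hn2 h
  have hsep' : ∀ y ∈ om f c, ∀ z ∈ om f c, y ≠ z →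
      ∃ n, (f^[n] y < c ∧ c < f^[n] z) ∨ (f^[n] z < c ∧ c < f^[n] y) := by
    intro y hy z hz hyz
    rcases lt_or_gt_of_ne hyz with h | h
    · exact hsep y hy z hz h
    · obtain ⟨n, hn⟩ := hsep z hz y hy h
      exact ⟨n, hn.symm⟩
  have hmaps := mapsTo_om hf c
  have hside : (¬ ∃ U : Ultrafilter ℕ, (U : Filter ℕ) ≤ atTop ∧
      Tendsto (fun n => f^[n] c) U (𝓝[Iio c] c)) ∨
      (¬ ∃ U : Ultrafilter ℕ, (U : Filter ℕ) ≤ atTop ∧
      Tendsto (fun n => f^[n] c) U (𝓝[Ioi c] c)) := by
    by_contra hh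
    push Not at hh
    obtain ⟨⟨UL, hUL, hL⟩, ⟨UR, hUR, hR⟩⟩ := hh
    exact not_both hf hi hd hp h1 hS hK hc hinj hmin hUL hUR hL hR
  rcases hside with hs | hs
  · -- symbols: `c ≤ y`
    have hav := exists_avoid hs isOpen_Iio
    refine no_sep (σ := fun y => decide (c ≤ y)) hf (isClosed_om c) hmaps hinj hc hp ?_ ?_
    · intro y hy
      rcases lt_trichotomy y c with h | h | h
      · filter_upwards [nhdsWithin_le_nhds (Iio_mem_nhds h)] with y' hy'
        simp [not_le.2 h, not_le.2 hy']
      · subst h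
        filter_upwards [hav] with y' hy'
        simp [not_lt.1 hy']
      · filter_upwards [nhdsWithin_le_nhds (Ioi_mem_nhds h)] with y' hy'
        simp [h.le, le_of_lt hy']
    · intro y hy z hz hyz
      obtain ⟨n, hn | hn⟩ := hsep' y hy z hz hyz
      · exact ⟨n, by simp [not_le.2 hn.1, hn.2.le]⟩
      · exact ⟨n, by simp [not_le.2 hn.1, hn.2.le]⟩
  · have hav := exists_avoid hs isOpen_Ioi
    refine no_sep (σ := fun y => decide (c < y)) hf (isClosed_om c) hmaps hinj hc hp ?_ ?_
    · intro y hy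
      rcases lt_trichotomy y c with h | h | h
      · filter_upwards [nhdsWithin_le_nhds (Iio_mem_nhds h)] with y' hy'
        simp [not_lt.2 h.le, not_lt.2 (le_of_lt hy')]
      · subst h
        filter_upwards [hav] with y' hy'
        simp only [mem_Ioi] at hy'
        simp [hy']
      · filter_upwards [nhdsWithin_le_nhds (Ioi_mem_nhds h)] with y' hy'
        have : c < y' := hy'
        simp [h, this]
    · intro y hy z hz hyz
      obtain ⟨n, hn | hn⟩ := hsep' y hy z hz hyz
      · exact ⟨n, by simp [not_lt.2 hn.1.le, hn.2]⟩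
      · exact ⟨n, by simp [not_lt.2 hn.1.le, hn.2]⟩

end Pool.Agent.R497.LB
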