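import Pool.Agent.R497.LB.Core

set_option autoImplicit false
set_option linter.unusedSectionVars false

namespace Pool.Agent.R497.LB

open Filter Topology Set

variable {X : Type*} [LinearOrder X] [TopologicalSpace X] [OrderTopology X]
variable {f : X → X} {c : X}

/-- (F4) -/
theorem F4 (hf : Continuous f) (hi : StrictMonoOn f (Iic c)) (hd : StrictAntiOn f (Ici c))
    (hp : ∀ n, 1 ≤ n → f^[n] c ≠ c) (h1 : c < f c) {S : ℕ → ℕ} (hS : IsCutting f c S)
    {K : ℕ} (hK : ∀ k, S (k + 1) - S k ≤ K) :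
    ∀ᶠ y in 𝓝 c, ∀ n, 1 ≤ n → f^[n] c = y → (par f c n = true ↔ c < y) := by
  have hA : ∀ᶠ y in 𝓝 c, ∀ j ∈ Finset.Icc 1 K,
      (c < f^[j] c → y < f^[j] c) ∧ (f^[j] c < c → f^[j] c < y) := by
    rw [Filter.eventually_all_finset]
    intro j _
    refine Filter.Eventually.and ?_ ?_
    · by_cases h : c < f^[j] c
      · filter_upwards [Iio_mem_nhds h] with y hy _
        exact hy
      · exact Filter.Eventually.of_forall fun y h' => absurd h' h
    · by_cases h : f^[j] c < c
      · filter_upwards [Ioi_mem_nhds h] with y hy _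
        exact hy
      · exact Filter.Eventually.of_forall fun y h' => absurd h' h
  have hB : ∀ᶠ y in 𝓝 c, ∀ i ∈ Finset.Icc 1 K,
      (c < f^[i] c → c < f^[i] y) ∧ (f^[i] c < c → f^[i] y < c) := by
    rw [Filter.eventually_all_finset]
    intro j _
    refine Filter.Eventually.and ?_ ?_
    · by_cases h : c < f^[j] c
      · filter_upwards [((hf.iterate j).tendsto c).eventually (Ioi_mem_nhds h)] with y hy _
        exact hy
      · exact Filter.Eventually.of_forall fun y h' => absurd h' h
    · by_cases h : f^[j] c < c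
      · filter_upwards [((hf.iterate j).tendsto c).eventually (Iio_mem_nhds h)] with y hy _
        exact hy
      · exact Filter.Eventually.of_forall fun y h' => absurd h' h
  filter_upwards [hA, hB] with y hAy hBy n hn hny
  have hnS : ∀ k, n ≠ S k := by
    intro k hk
    have hlt := S_lt hS k
    have hi' : S (k + 1) - S k ∈ Finset.Icc 1 K := Finset.mem_Icc.2 ⟨by omega, hK k⟩
    obtain ⟨b1, b2⟩ := hBy _ hi'
    have hne := (hS.2 k).1.2
    have e : f^[S (k + 1)] c = f^[S (k + 1) - S k] y := by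
      rw [← hny, ← Function.iterate_add_apply, hk]
      congr 1
      omega
    rw [e] at hne
    rcases lt_or_gt_of_ne (hp (S (k + 1) - S k) (by omega)) with h | h
    · exact hne ⟨fun h' => absurd h' (not_lt.2 (b2 h).le), fun h' => absurd h' (not_lt.2 h.le)⟩
    · exact hne ⟨fun _ => h, fun _ => b1 h⟩
  obtain ⟨k, k1, k2⟩ := block hS hn hnS
  have hj : n - S k ∈ Finset.Icc 1 K := Finset.mem_Icc.2 ⟨by omega, by have := hK k; omega⟩
  obtain ⟨a1, a2⟩ := hAy _ hj
  obtain ⟨g1, g2⟩ := F1 hi hd hp h1 hS k n k1 k2.le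
  have hag := agree hS k1 k2
  rw [hny] at g1 g2 hag
  have hyc : y ≠ c := hny ▸ hp n hn
  constructor
  · intro hpar
    by_contra hyc'
    have hlt : y < c := lt_of_le_of_ne (not_lt.1 hyc') hyc
    have hj' : f^[n - S k] c < c := by
      have : ¬ c < f^[n - S k] c := fun h => hyc' (hag.2 h)
      exact lt_of_le_of_ne (not_lt.1 this) (hp _ (by omega))
    exact absurd (g1 hpar) (not_lt.2 (a2 hj').le)
  · intro hlt
    rcases hb : par f c n with _ | _
    · exact absurd (g2 hb) (not_lt.2 (a1 (hag.1 hlt)).le)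
    · rfl

/-- Omega-limit set: the set of cluster points of the forward orbit. -/
def om (f : X → X) (x : X) : Set X := {y | MapClusterPt y atTop (fun n => f^[n] x)}

theorem isClosed_om (x : X) : IsClosed (om f x) := isClosed_setOfPred_clusterPt

variable [CompactSpace X]

theorem mem_om_iff {x y : X} : y ∈ om f x ↔
    ∃ U : Ultrafilter ℕ, (U : Filter ℕ) ≤ atTop ∧ Tendsto (fun n => f^[n] x) U (𝓝 y) := by
  unfold om
  rw [mem_ofPred_eq, mapClusterPt_iff_ultrafilter]

/-- Limits of `f^[n-m] x` along an ultrafilter -/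
theorem exists_back (hf : Continuous f) {x y : X} {U : Ultrafilter ℕ} (hU : (U : Filter ℕ) ≤ atTop)
    (hy : Tendsto (fun n => f^[n] x) U (𝓝 y)) (m : ℕ) :
    ∃ z ∈ om f x, Tendsto (fun n => f^[n - m] x) U (𝓝 z) ∧ f^[m] z = y := by
  obtain ⟨z, _, hz⟩ := isCompact_univ.ultrafilter_le_nhds' (Ultrafilter.map (fun n => f^[n - m] x) U)
    Filter.univ_mem
  have hz' : Tendsto (fun n => f^[n - m] x) U (𝓝 z) := hz
  refine ⟨z, ?_, hz', ?_⟩
  · rw [mem_om_iff]
    refine ⟨Ultrafilter.map (fun n => n - m) U, ?_, hz'⟩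
    exact (tendsto_sub_atTop_nat m).mono_left hU
  · have h1 : Tendsto (fun n => f^[m] (f^[n - m] x)) U (𝓝 (f^[m] z)) :=
      ((hf.iterate m).tendsto z).comp hz'
    refine tendsto_nhds_unique h1 (hy.congr' ?_)
    filter_upwards [hU (eventually_ge_atTop m)] with n hn
    rw [← Function.iterate_add_apply]
    congr 1
    omega

theorem mapsTo_om (hf : Continuous f) (x : X) : MapsTo f (om f x) (om f x) := by
  intro y hy
  rw [mem_om_iff] at hy ⊢
  obtain ⟨U, hU, hy⟩ := hy
  refine ⟨Ultrafilter.map (fun n => n + 1) U, ?_, ?_⟩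
  · exact (tendsto_add_atTop_nat 1).mono_left hU
  · have h1 : Tendsto (fun n => f (f^[n] x)) U (𝓝 (f y)) := (hf.tendsto y).comp hy
    refine (Filter.tendsto_map' ?_ : Tendsto _ (Filter.map (fun n => n + 1) (U : Filter ℕ)) _)
    refine h1.congr fun n => ?_
    simp only [Function.comp]
    rw [Function.iterate_succ_apply']

end Pool.Agent.R497.LB
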